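import Mathlib

set_option autoImplicit false
set_option linter.unusedVariables false

namespace Pool.Agent.DPLU

open Pointwise

abbrev G : Type := Equiv.Perm ℚ

noncomputable instance decG : DecidableEq G := Classical.decEq _

/-- the affine map `x ↦ 2^k x + b` -/
def gp (k b : ℕ) : G where
  toFun x := 2 ^ k * x + b
  invFun y := (y - b) / 2 ^ k
  left_inv x := by
    have : (2 : ℚ) ^ k ≠ 0 := by positivity
    field_simp
    ring
  right_inv y := by
    have : (2 : ℚ) ^ k ≠ 0 := by positivity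
    field_simp
    ring

theorem gp_apply (k b : ℕ) (x : ℚ) : gp k b x = 2 ^ k * x + b := rfl

theorem gp_mul (k b k' b' : ℕ) : gp k b * gp k' b' = gp (k + k') (b + 2 ^ k * b') := by
  ext x
  rw [Equiv.Perm.mul_apply, gp_apply, gp_apply, gp_apply]
  push_cast
  ring

theorem gp_inj {k b k' b' : ℕ} (h : gp k b = gp k' b') : k = k' ∧ b = b' := by
  have h0 : gp k b 0 = gp k' b' 0 := by rw [h]
  have h1 : gp k b 1 = gp k' b' 1 := by rw [h]
  rw [gp_apply, gp_apply] at h0 h1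
  have hb : (b : ℚ) = b' := by linarith
  have hk : (2 : ℚ) ^ k = 2 ^ k' := by rw [hb] at h1; linarith
  have hk' : (2 : ℕ) ^ k = 2 ^ k' := by exact_mod_cast hk
  exact ⟨Nat.pow_right_injective (le_refl 2) hk', by exact_mod_cast hb⟩

noncomputable def box (s t : Finset ℕ) : Finset G := (s ×ˢ t).image (fun p => gp p.1 p.2)

theorem card_box (s t : Finset ℕ) : (box s t).card = s.card * t.card := by
  unfold box
  rw [Finset.card_image_of_injective, Finset.card_product]
  rintro ⟨a, b⟩ ⟨c, d⟩ h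
  have := gp_inj h
  exact Prod.ext this.1 this.2

theorem mem_box {s t : Finset ℕ} {k b : ℕ} (hk : k ∈ s) (hb : b ∈ t) : gp k b ∈ box s t := by
  unfold box
  exact Finset.mem_image.2 ⟨(k, b), Finset.mem_product.2 ⟨hk, hb⟩, rfl⟩

noncomputable def A (n M : ℕ) : Finset G := box (Finset.range n) (Finset.range M)
noncomputable def B : Finset G := {gp 1 0, gp 1 1}

theorem mem_B {g : G} (h : g ∈ B) : ∃ e : ℕ, e ≤ 1 ∧ g = gp 1 e := by
  unfold B at h
  rw [Finset.mem_insert, Finset.mem_singleton] at h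
  rcases h with h | h
  · exact ⟨0, by norm_num, h⟩
  · exact ⟨1, le_refl _, h⟩

theorem mem_A {n M : ℕ} {g : G} (h : g ∈ A n M) : ∃ k b, k < n ∧ b < M ∧ g = gp k b := by
  unfold A box at h
  obtain ⟨⟨k, b⟩, hp, rfl⟩ := Finset.mem_image.1 h
  rw [Finset.mem_product] at hp
  exact ⟨k, b, Finset.mem_range.1 hp.1, Finset.mem_range.1 hp.2, rfl⟩

theorem AB (n M : ℕ) : (A n M * B).card ≤ n * (M + 2 ^ (n + 2)) := by
  have h : A n M * B ⊆ box (Finset.Ico 1 (n + 1)) (Finset.range (M + 2 ^ (n + 2))) := by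
    intro g hg
    obtain ⟨a, ha, b, hb, rfl⟩ := Finset.mem_mul.1 hg
    obtain ⟨k, x, hk, hx, rfl⟩ := mem_A ha
    obtain ⟨e, he, rfl⟩ := mem_B hb
    rw [gp_mul]
    refine mem_box (Finset.mem_Ico.2 ⟨by omega, by omega⟩) (Finset.mem_range.2 ?_)
    have h1 : 2 ^ k * e ≤ 2 ^ k * 1 := Nat.mul_le_mul_left _ he
    have h2 : 2 ^ k ≤ 2 ^ (n + 2) := Nat.pow_le_pow_right (by norm_num) (by omega)
    omega
  refine (Finset.card_le_card h).trans ?_
  rw [card_box, Nat.card_Ico, Finset.card_range]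
  simp

theorem AbB (n M : ℕ) (b : G) (hb : b ∈ B) : (A n M * {b} * B).card ≤ n * (M + 2 ^ (n + 2)) := by
  have h : A n M * {b} * B ⊆ box (Finset.Ico 2 (n + 2)) (Finset.range (M + 2 ^ (n + 2))) := by
    intro g hg
    obtain ⟨a', ha', b', hb', rfl⟩ := Finset.mem_mul.1 hg
    obtain ⟨a, ha, b'', hb'', rfl⟩ := Finset.mem_mul.1 ha'
    rw [Finset.mem_singleton] at hb''
    subst hb''
    obtain ⟨k, x, hk, hx, rfl⟩ := mem_A ha
    obtain ⟨e, he, rfl⟩ := mem_B hb
    obtain ⟨e', he', rfl⟩ := mem_B hb'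
    rw [gp_mul, gp_mul]
    refine mem_box (Finset.mem_Ico.2 ⟨by omega, by omega⟩) (Finset.mem_range.2 ?_)
    have h1 : 2 ^ k * e ≤ 2 ^ k * 1 := Nat.mul_le_mul_left _ he
    have h1' : 2 ^ (k + 1) * e' ≤ 2 ^ (k + 1) * 1 := Nat.mul_le_mul_left _ he'
    have h2 : 2 ^ k ≤ 2 ^ (n + 1) := Nat.pow_le_pow_right (by norm_num) (by omega)
    have h3 : 2 ^ (k + 1) ≤ 2 ^ (n + 1) := Nat.pow_le_pow_right (by norm_num) (by omega)
    have h4 : 2 ^ (n + 2) = 2 ^ (n + 1) * 2 := pow_succ _ _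
    omega
  refine (Finset.card_le_card h).trans ?_
  rw [card_box, Nat.card_Ico, Finset.card_range]
  simp

theorem mem_Bpow (h : ℕ) : ∀ m, m < 2 ^ h → gp h m ∈ B ^ h := by
  induction h with
  | zero =>
    intro m hm
    have : m = 0 := by simpa using hm
    subst this
    rw [pow_zero, Finset.mem_one]
    ext x
    rw [gp_apply]
    simp
  | succ h ih =>
    intro m hm
    rw [pow_succ]
    by_cases hlt : m < 2 ^ h
    · refine Finset.mem_mul.2 ⟨gp h m, ih m hlt, gp 1 0, ?_, ?_⟩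
      · unfold B; simp
      · rw [gp_mul]; simp
    · have h2 : 2 ^ (h + 1) = 2 ^ h * 2 := pow_succ _ _
      refine Finset.mem_mul.2 ⟨gp h (m - 2 ^ h), ih _ (by omega), gp 1 1, ?_, ?_⟩
      · unfold B; simp
      · rw [gp_mul]
        congr 1
        omega

theorem card_Bpow (h : ℕ) : 2 ^ h ≤ (B ^ h).card := by
  have h1 : box {h} (Finset.range (2 ^ h)) ⊆ B ^ h := by
    intro g hg
    unfold box at hg
    obtain ⟨⟨k, b⟩, hp, rfl⟩ := Finset.mem_image.1 hg
    rw [Finset.mem_product, Finset.mem_singleton] at hp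
    obtain ⟨hk, hb⟩ := hp
    simp only at hk hb ⊢
    subst hk
    exact mem_Bpow k b (Finset.mem_range.1 hb)
  have h2 := Finset.card_le_card h1
  rw [card_box, Finset.card_singleton, Finset.card_range, one_mul] at h2
  exact h2

theorem card_XB (X : Finset G) (hX : X.Nonempty) (h : ℕ) : 2 ^ h ≤ (X * B ^ h).card := by
  obtain ⟨x, hx⟩ := hX
  refine (card_Bpow h).trans ?_
  rw [← Finset.card_image_of_injective (B ^ h) (mul_right_injective x)]
  refine Finset.card_le_card ?_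
  intro g hg
  obtain ⟨y, hy, rfl⟩ := Finset.mem_image.1 hg
  exact Finset.mul_mem_mul hx hy

theorem main :
    ¬ (∃ c : ℝ, ∀ (G : Type) [Group G] [DecidableEq G] (A B : Finset G) (α : ℝ),
      (((A * B).card : ℝ) < α * (A.card : ℝ)) →
      (∀ b ∈ B, (((A * {b} * B).card : ℝ) ≤ α * (A.card : ℝ))) →
      ∀ h : ℕ, 1 ≤ h →
        ∃ X : Finset G, X ⊆ A ∧ X.Nonempty ∧
          (((X * B ^ h).card : ℝ) ≤ α ^ (c * (h : ℝ)) * (X.card : ℝ))) := by
  rintro ⟨c, H⟩
  set c' : ℝ := max c 1 with hc'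
  have hc1 : 1 ≤ c' := le_max_right _ _
  obtain ⟨n, hn⟩ := exists_nat_gt (6 * c')
  have hn0 : (0 : ℝ) < n := by linarith
  have hn0' : 0 < n := by exact_mod_cast hn0
  set M : ℕ := n * 2 ^ (n + 2) with hM
  have hMpos : 0 < M := by positivity
  have hMr : (0 : ℝ) < M := by exact_mod_cast hMpos
  set α : ℝ := 1 + 2 / n with hα
  have hα1 : 1 ≤ α := by
    have : 0 < 2 / (n : ℝ) := by positivity
    linarith
  have hcA : ((A n M).card : ℝ) = n * M := by
    unfold A
    rw [card_box, Finset.card_range, Finset.card_range]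
    push_cast
    rfl
  have hup : ((n * (M + 2 ^ (n + 2)) : ℕ) : ℝ) = (1 + 1 / n) * (n * M) := by
    have h1 : ((2 ^ (n + 2) : ℕ) : ℝ) = M / n := by
      rw [hM]
      push_cast
      field_simp
    push_cast at h1 ⊢
    rw [h1]
    field_simp
  have hlt : (1 + 1 / (n : ℝ)) * (n * M) < α * (n * M) := by
    refine mul_lt_mul_of_pos_right ?_ (by positivity)
    have h1 : 1 / (n : ℝ) < 2 / n := by
      apply div_lt_div_of_pos_right _ hn0
      norm_num
    linarith
  obtain ⟨h, hh⟩ := pow_unbounded_of_one_lt ((n : ℝ) * M) (show (1 : ℝ) < 4 / 3 by norm_num)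
  have hh1 : 1 ≤ h := by
    by_contra hcon
    have : h = 0 := by omega
    subst this
    rw [pow_zero] at hh
    have h1 : (1 : ℝ) ≤ (n : ℝ) * M := by
      have : 1 ≤ n * M := Nat.mul_pos hn0' hMpos
      exact_mod_cast this
    linarith
  obtain ⟨X, hXA, hXne, hX⟩ := H G (A n M) B α
    (by
      rw [hcA]
      refine lt_of_le_of_lt ?_ hlt
      rw [← hup]
      exact_mod_cast AB n M)
    (by
      intro b hb
      rw [hcA]
      refine le_trans ?_ hlt.le
      rw [← hup]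
      exact_mod_cast AbB n M b hb)
    h hh1
  have h1 : (2 : ℝ) ^ h ≤ ((X * B ^ h).card : ℝ) := by exact_mod_cast card_XB X hXne h
  have h2 : (X.card : ℝ) ≤ n * M := by
    rw [← hcA]
    exact_mod_cast Finset.card_le_card hXA
  have h3 : α ^ c' ≤ 3 / 2 := by
    have h4 : α ≤ Real.exp (2 / n) := by
      have := Real.add_one_le_exp (2 / (n : ℝ))
      linarith
    have h5 : α ^ c' ≤ (Real.exp (2 / n)) ^ c' :=
      Real.rpow_le_rpow (by linarith) h4 (by linarith)
    rw [← Real.exp_mul] at h5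
    have h6 : 2 / (n : ℝ) * c' ≤ 1 / 3 := by
      rw [div_mul_eq_mul_div, div_le_iff₀ hn0]
      linarith
    have h7 : Real.exp (2 / (n : ℝ) * c') ≤ Real.exp (1 / 3) := Real.exp_le_exp.2 h6
    have h8 : Real.exp (1 / 3) ≤ 3 / 2 := by
      by_contra hcon
      push Not at hcon
      have h9 : (3 / 2 : ℝ) ^ 3 < Real.exp (1 / 3) ^ 3 := pow_lt_pow_left₀ hcon (by norm_num) (by norm_num)
      rw [← Real.exp_nat_mul] at h9
      have h10 : ((3 : ℕ) : ℝ) * (1 / 3) = 1 := by norm_num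
      rw [h10] at h9
      have := Real.exp_one_lt_d9
      norm_num at h9
      linarith
    linarith
  have h4 : α ^ (c * (h : ℝ)) ≤ (3 / 2 : ℝ) ^ h := by
    have h5 : α ^ (c * (h : ℝ)) ≤ α ^ (c' * (h : ℝ)) := by
      apply Real.rpow_le_rpow_of_exponent_le hα1
      exact mul_le_mul_of_nonneg_right (le_max_left _ _) (by positivity)
    have e5 : α ^ (c' * (h : ℝ)) = (α ^ c') ^ h := by
      rw [Real.rpow_mul (by linarith), Real.rpow_natCast]
    rw [e5] at h5
    exact h5.trans (pow_le_pow_left₀ (by positivity) h3 h)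
  have h5 : α ^ (c * (h : ℝ)) * (X.card : ℝ) ≤ (3 / 2 : ℝ) ^ h * (n * M) :=
    mul_le_mul h4 h2 (by positivity) (by positivity)
  have h6 : (2 : ℝ) ^ h = (3 / 2 : ℝ) ^ h * (4 / 3 : ℝ) ^ h := by
    rw [← mul_pow]; norm_num
  have h7 : (3 / 2 : ℝ) ^ h * (n * M) < (3 / 2 : ℝ) ^ h * (4 / 3 : ℝ) ^ h :=
    mul_lt_mul_of_pos_left hh (by positivity)
  linarith

end Pool.Agent.DPLU
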